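import Pool.Agent.Helper95.GB.KL.KL2

/-! # GB/AS/Asm1: a 2-cycle is a boundary of a 3-chain of the Koszul complex, modulo products 

Proof.  `KL2` gives `x i j = bd3 y i j + ∑ m < N, C (ω m i j) * X st ^ m`.  For `vt i = vt j` apply `coefFun m`:
`coefFun m (x i j) = 0`, `coefFun m (bd3 y i j) = 0` (`coefFun_diff_mul`, `coefFun_add`), so by `coefFun_C_mul_pow`
`ω m i j = 0` for `m < N` (replace `ω m` by `0` for `m ≥ N`).  Hence `bd3 y i j = 0` for `vt i = vt j`.
By `hPL` `ω m` is in the closure of the `wedge c c'`.  The map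
`w ↦ (fun i j => C (w i j) * X st ^ m)` is additive, and it sends `wedge c c'` to
`wedge (fun i => C (c i) * X st ^ m) (fun i => C (c' i))`, which is in `𝒮` by `h2`: `Cyc1` follows from `Harm1`
(`∑ k, th k * C (c k) = 0`: compare the coefficients, they are the sums of `Harm1` for indicator functions `u`;
this is `cyc1_of_harm1`).
-/

set_option autoImplicit false

namespace GB

open MvPolynomial

namespace DG

variable {V J E : Type} [Fintype J]

theorem cyc1_of_harm1 (S : DG V J E) (c : J → ℤ) (hc : S.Harm1 c) (p : MvPolynomial E ℤ) :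
    S.Cyc1 (fun j => C (c j) * p) := by
  classical
  have key : ∑ j, S.th j * C (c j) = 0 := by
    ext m
    rw [coeff_sum, coeff_zero]
    have h := hc (fun e => if Finsupp.single e 1 = m then 1 else 0)
    rw [← h]
    refine Finset.sum_congr rfl fun j _ => ?_
    rw [mul_comm (S.th j), coeff_C_mul, DG.th, coeff_sub, coeff_X', coeff_X']
  have h2 : ∑ j, S.th j * (C (c j) * p) = (∑ j, S.th j * C (c j)) * p := by
    rw [Finset.sum_mul]
    exact Finset.sum_congr rfl fun j _ => by ring
  show ∑ j, S.th j * (C (c j) * p) = 0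
  rw [h2, key, zero_mul]

theorem asm1 [Fintype E] (S : DG V J E) (st : E) (q : E → J → ℤ) (hq : S.Qdata st q)
    (hPL : S.PLprop) (𝒮 : AddSubgroup (J → J → MvPolynomial E ℤ))
    (h2 : ∀ z z' : J → MvPolynomial E ℤ, S.Cyc1 z → S.Cyc1 z' →
      (∀ i j, S.vt i = S.vt j → z i = 0 ∨ z' j = 0) → wedge z z' ∈ 𝒮)
    (x : J → J → MvPolynomial E ℤ) (hx : Alt2 x) (h0 : ∀ i j, S.vt i = S.vt j → x i j = 0)
    (hc : ∀ j, S.bd2 x j = 0) :
    ∃ y : J → J → J → MvPolynomial E ℤ, Alt3 y ∧ (∀ i j, S.vt i = S.vt j → S.bd3 y i j = 0) ∧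
      x - S.bd3 y ∈ 𝒮 := by
  classical
  obtain ⟨y, N, ω, hy, hω, hxy⟩ := S.KL2 st q hq x hx hc
  have hz : ∀ m, m < N → ∀ i j, S.vt i = S.vt j → ω m i j = 0 := by
    intro m hm i j hij
    let F : MvPolynomial E ℤ →+ ℤ := AddMonoidHom.mk' (coefFun m) (coefFun_add m)
    have hF : ∀ p, F p = coefFun m p := fun _ => rfl
    have h1 : F (x i j) = F (S.bd3 y i j) +
        F (∑ l ∈ Finset.range N, C (ω l i j) * X st ^ l) := by
      rw [← map_add, ← hxy i j]
    rw [h0 i j hij, map_zero] at h1
    have h3 : F (S.bd3 y i j) = 0 := by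
      unfold DG.bd3
      rw [map_sum]
      refine Finset.sum_eq_zero fun k _ => ?_
      rw [hF]
      exact coefFun_diff_mul m _ _ _
    have h4 : F (∑ l ∈ Finset.range N, C (ω l i j) * X st ^ l) = ω m i j := by
      rw [map_sum]
      have h5 : ∀ l ∈ Finset.range N, F (C (ω l i j) * X st ^ l) =
          if l = m then ω l i j else 0 := by
        intro l _
        rw [hF]
        exact coefFun_C_mul_pow m l _ st
      rw [Finset.sum_congr rfl h5, Finset.sum_ite_eq' (Finset.range N) m]
      simp [hm]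
    rw [h3, h4, zero_add] at h1
    exact h1.symm
  refine ⟨y, hy, ?_, ?_⟩
  · intro i j hij
    have h1 := hxy i j
    have h3 : ∑ m ∈ Finset.range N, (C (ω m i j) * X st ^ m : MvPolynomial E ℤ) = 0 := by
      refine Finset.sum_eq_zero fun m hm => ?_
      rw [hz m (Finset.mem_range.mp hm) i j hij, map_zero, zero_mul]
    rw [h0 i j hij, h3, add_zero] at h1
    exact h1.symm
  · have h1 : x - S.bd3 y = ∑ m ∈ Finset.range N,
        (fun i j => (C (ω m i j) * X st ^ m : MvPolynomial E ℤ)) := by
      funext i j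
      have h3 := hxy i j
      rw [Finset.sum_apply, Finset.sum_apply, Pi.sub_apply, Pi.sub_apply, h3]
      ring
    rw [h1]
    refine AddSubgroup.sum_mem _ fun m hm => ?_
    let G : (J → J → ℤ) →+ (J → J → MvPolynomial E ℤ) :=
      { toFun := fun w i j => C (w i j) * X st ^ m
        map_zero' := by
          funext i j
          simp
        map_add' := by
          intro w w'
          funext i j
          simp [add_mul] }
    have hG : ∀ w i j, G w i j = C (w i j) * X st ^ m := fun _ _ _ => rfl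
    have h3 := hPL (ω m) (hω m).1 (hω m).2 (hz m (Finset.mem_range.mp hm))
    have h4 : AddSubgroup.closure {w : J → J → ℤ | ∃ c c' : J → ℤ, S.Harm1 c ∧ S.Harm1 c' ∧
        (∀ i j, S.vt i = S.vt j → c i = 0 ∨ c' j = 0) ∧ w = wedge c c'} ≤
        AddSubgroup.comap G 𝒮 := by
      rw [AddSubgroup.closure_le]
      rintro w ⟨c, c', hc1, hc2, hcc, rfl⟩
      show G (wedge c c') ∈ 𝒮
      have h5 : G (wedge c c') = wedge (fun i => (C (c i) * X st ^ m : MvPolynomial E ℤ))
          (fun i => C (c' i) * 1) := by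
        funext i j
        rw [hG]
        simp only [wedge, map_sub, map_mul]
        ring
      rw [h5]
      refine h2 _ _ (S.cyc1_of_harm1 c hc1 _) (S.cyc1_of_harm1 c' hc2 _) ?_
      intro i j hij
      rcases hcc i j hij with h | h
      · left
        rw [h, map_zero, zero_mul]
      · right
        rw [h, map_zero, zero_mul]
    exact h4 h3

end DG

end GB
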