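import Pool.Agent.Helper95.GB.AS.Loc

/-! # GB/AS/Asm2: removing the components at one vertex (stub, prove in place)

Proof.  For each `v : V` take `z v, N v, τ v, e₀ v` from `loc` and `Φ v m` from `hTH v (τ v m)`.  Put
`y'' i j k = y i j k - ∑ v, ∑ l, th l * z v l i j k - ∑ v, ∑ m < N v, C (Φ v m i j k) * X (e₀ v) ^ m`.
* `Alt3 y''` (each summand is alternating in `i j k`).
* `bd3` of the second term is `0`: `∑ k, ∑ l, th k * th l * z v l k i j = 0` by antisymmetry.  `bd3` of the third
term is `0`: `∑ k, th k * C (Φ v m k i j) = 0` by `Harm3` (as `cyc1_of_harm1` in `Asm1`: compare coefficients).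
* Let `i, j, k` be at the same vertex `v`.  For `w ≠ v`: `z w l i j k = 0` (two indices `i, j` not at `w`; move them to the
first two places by `Alt4`), `Φ w m i j k = 0`.  For `w = v`: `Φ v m i j k = τ v m i j k`.  So `y'' i j k = 0` by `loc`.
-/

set_option autoImplicit false

namespace GB

open MvPolynomial

theorem DG.asm2_cyc {V J E : Type} [Fintype J] (S : DG V J E) (c : J → ℤ) (hc : S.Harm1 c) :
    ∑ k, S.th k * C (c k) = 0 := by
  ext M
  rw [coeff_sum, coeff_zero, ← hc (fun e => coeff M (X e : MvPolynomial E ℤ))]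
  refine Finset.sum_congr rfl fun k _ => ?_
  rw [mul_comm (S.th k), coeff_C_mul]
  unfold DG.th
  rw [coeff_sub]

theorem DG.asm2_sq {V J E : Type} [Fintype J] (S : DG V J E)
    (z : J → J → MvPolynomial E ℤ) (hz : ∀ k l, z l k = - z k l) :
    ∑ k, S.th k * ∑ l, S.th l * z l k = 0 := by
  obtain ⟨A, hA⟩ : ∃ A, A = ∑ k, ∑ l, S.th k * (S.th l * z l k) := ⟨_, rfl⟩
  have h1 : A = -A := by
    conv_lhs => rw [hA, Finset.sum_comm]
    rw [hA, ← Finset.sum_neg_distrib]
    refine Finset.sum_congr rfl fun k _ => ?_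
    rw [← Finset.sum_neg_distrib]
    refine Finset.sum_congr rfl fun l _ => ?_
    rw [hz l k]
    ring
  have h2 : (2 : MvPolynomial E ℤ) * A = 0 := by
    linear_combination h1
  have h3 : A = 0 := by
    rcases mul_eq_zero.1 h2 with h | h
    · exact absurd h two_ne_zero
    · exact h
  simp only [Finset.mul_sum]
  rw [← hA, h3]

theorem DG.asm2 {V J E : Type} [Fintype V] [Fintype J] [Fintype E] (S : DG V J E)
    (hconn : S.Conn) (hTH : S.THprop) (y : J → J → J → MvPolynomial E ℤ) (hy : Alt3 y)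
    (h0 : ∀ i j, S.vt i = S.vt j → S.bd3 y i j = 0) :
    ∃ y'' : J → J → J → MvPolynomial E ℤ, Alt3 y'' ∧ (∀ i j, S.bd3 y'' i j = S.bd3 y i j) ∧
      ∀ i j k, S.vt i = S.vt j → S.vt j = S.vt k → y'' i j k = 0 := by
  classical
  choose z N τ e₀ hz4 hz0 hτ hyz using fun v =>
    S.loc hconn v y hy fun i j hi hj => h0 i j (hi.trans hj.symm)
  choose Φ hΦ3 hΦh hΦτ hΦ0 using fun v m => hTH v (τ v m) (hτ v m)
  refine ⟨fun i j k => y i j k - ∑ v, ∑ l, S.th l * z v l i j k -
    ∑ v, ∑ m ∈ Finset.range (N v), C (Φ v m i j k) * X (e₀ v) ^ m, ⟨fun i j k => ?_,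
      fun i j k => ?_⟩, fun i j => ?_, fun i j k hij hjk => ?_⟩
  · have e1 : ∀ v l, z v l j i k = - z v l i j k := fun v l => (hz4 v).2.1 l i j k
    have e2 : ∀ v m, Φ v m j i k = - Φ v m i j k := fun v m => (hΦ3 v m).1 i j k
    simp only [e1, e2, hy.1 i j k, mul_neg, Finset.sum_neg_distrib, map_neg, neg_mul]
    ring
  · have e1 : ∀ v l, z v l i k j = - z v l i j k := fun v l => (hz4 v).2.2 l i j k
    have e2 : ∀ v m, Φ v m i k j = - Φ v m i j k := fun v m => (hΦ3 v m).2 i j k
    simp only [e1, e2, hy.2 i j k, mul_neg, Finset.sum_neg_distrib, map_neg, neg_mul]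
    ring
  · unfold DG.bd3
    simp only [mul_sub, Finset.sum_sub_distrib]
    have e1 : ∑ k, S.th k * ∑ v, ∑ l, S.th l * z v l k i j = 0 := by
      have h1 : ∀ k, S.th k * ∑ v, ∑ l, S.th l * z v l k i j =
          ∑ v, S.th k * ∑ l, S.th l * z v l k i j := fun k => Finset.mul_sum _ _ _
      simp only [h1]
      rw [Finset.sum_comm]
      exact Finset.sum_eq_zero fun v _ =>
        S.asm2_sq (fun l k => z v l k i j) fun k l => (hz4 v).1 k l i j
    have e2 : ∑ k, S.th k * ∑ v, ∑ m ∈ Finset.range (N v), C (Φ v m k i j) * X (e₀ v) ^ m =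
        0 := by
      have h1 : ∀ k, S.th k * ∑ v, ∑ m ∈ Finset.range (N v), C (Φ v m k i j) * X (e₀ v) ^ m =
          ∑ v, ∑ m ∈ Finset.range (N v), S.th k * C (Φ v m k i j) * X (e₀ v) ^ m := fun k => by
        rw [Finset.mul_sum]
        refine Finset.sum_congr rfl fun v _ => ?_
        rw [Finset.mul_sum]
        exact Finset.sum_congr rfl fun m _ => (mul_assoc _ _ _).symm
      simp only [h1]
      rw [Finset.sum_comm]
      refine Finset.sum_eq_zero fun v _ => ?_
      rw [Finset.sum_comm]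
      refine Finset.sum_eq_zero fun m _ => ?_
      rw [← Finset.sum_mul, S.asm2_cyc _ (hΦh v m i j), zero_mul]
    rw [e1, e2, sub_zero, sub_zero]
  · have e1 : ∑ v, ∑ l, S.th l * z v l i j k = ∑ l, S.th l * z (S.vt i) l i j k := by
      refine Finset.sum_eq_single (S.vt i) (fun w _ hw => ?_)
        fun h => absurd (Finset.mem_univ _) h
      refine Finset.sum_eq_zero fun l _ => ?_
      have h1 : z w l i j k = - z w i l j k := (hz4 w).1 i l j k
      have h2 : z w i l j k = - z w i j l k := (hz4 w).2.1 i j l k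
      rw [h1, h2, hz0 w i j l k (Ne.symm hw) (hij ▸ Ne.symm hw)]
      ring
    have e2 : ∑ v, ∑ m ∈ Finset.range (N v), C (Φ v m i j k) * X (e₀ v) ^ m =
        ∑ m ∈ Finset.range (N (S.vt i)), C (τ (S.vt i) m i j k) * X (e₀ (S.vt i)) ^ m := by
      rw [Finset.sum_eq_single (S.vt i)]
      · refine Finset.sum_congr rfl fun m _ => ?_
        rw [hΦτ (S.vt i) m i j k rfl hij.symm (hij.trans hjk).symm]
      · intro w _ hw
        refine Finset.sum_eq_zero fun m _ => ?_
        rw [hΦ0 w m i j k (Ne.symm hw) hij.symm (hij.trans hjk).symm, map_zero, zero_mul]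
      · exact fun h => absurd (Finset.mem_univ _) h
    simp only
    rw [e1, e2, hyz (S.vt i) i j k rfl hij.symm (hij.trans hjk).symm]
    ring

end GB
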