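import Pool.Agent.Helper95.GB.Iface

/-! # GB/AS/Asm3: 3-chains without components at one vertex (stub, prove in place)

Proof.  Let `yd` be the part of `y` at triples of three different vertices (zero elsewhere) and, for `v : V`, `y_v` the
part at triples with exactly two of the three vertices equal to `v`.  Then `y = yd + ∑ v, y_v` (no triple has three
equal vertices by `h0`).  `bd3 yd ∈ 𝒮` by `h1`.  `bd3` is additive, so it remains to show `bd3 y_v ∈ 𝒮`.
Let `o : J → ℕ` be injective.  For `a, b` at `v` with `o a < o b` let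
`z1 = fun j => if j = b then th a else if j = a then - th b else 0`, `Z = fun k => if vt k = v then 0 else y a b k`.
`Cyc1 z1`: `th b * th a - th a * th b = 0`.  `Cyc1 Z`: `∑_{vt k ≠ v} th k * y a b k = ∑_{vt k ≠ v} th k * y k a b
= bd3 y a b - ∑_{vt k = v} th k * y k a b = 0` by `h0'` and `h0`.  They use different vertices, so
`wedge z1 Z ∈ 𝒮`.
Claim: `bd3 y_v = ∑_{a, b at v, o a < o b} wedge z1 Z`.  At `(i,j)`:
* `i, j` at `v`: left side `∑_{vt k ≠ v} th k * y k i j = 0` as above; right side `0` since `Z` vanishes at `v`.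
* `i` at `v`, `j` not: left `∑_{vt k = v} th k * y k i j`; right `∑_{a<b} z1 i * Z j =
∑_{o a < o i} th a * y a i j - ∑_{o i < o b} th b * y i b j`, equal (`y i b j = - y b i j`, `y i i j = 0`).
* `j` at `v`, `i` not: by antisymmetry of both sides.
* both not at `v`: both sides `0` (`y_v k i j = 0`).
-/

set_option autoImplicit false

namespace GB

open MvPolynomial

private noncomputable def z1 {V J E : Type} (S : DG V J E) (a b : J) : J → MvPolynomial E ℤ := by
  classical exact fun j => if j = b then S.th a else if j = a then -S.th b else 0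

private noncomputable def zZ {V J E : Type} (S : DG V J E) (y : J → J → J → MvPolynomial E ℤ)
    (a b : J) : J → MvPolynomial E ℤ := by
  classical exact fun k => if S.vt k = S.vt a then 0 else y a b k

private theorem z1_cyc {V J E : Type} [Fintype J] (S : DG V J E) {a b : J} (h : a ≠ b) :
    S.Cyc1 (z1 S a b) := by
  classical
  unfold DG.Cyc1 z1
  have h1 : ∀ j, S.th j * (if j = b then S.th a else if j = a then -S.th b else 0) =
      (if j = b then S.th b * S.th a else 0) + (if j = a then -(S.th a * S.th b) else 0) := by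
    intro j
    by_cases h1 : j = b
    · subst h1
      rw [if_pos rfl, if_pos rfl, if_neg (Ne.symm h), add_zero]
    · rw [if_neg h1, if_neg h1, zero_add]
      by_cases h2 : j = a
      · subst h2
        rw [if_pos rfl, if_pos rfl]
        ring
      · rw [if_neg h2, if_neg h2, mul_zero]
  rw [Finset.sum_congr rfl fun j _ => h1 j, Finset.sum_add_distrib, Finset.sum_ite_eq',
    Finset.sum_ite_eq', if_pos (Finset.mem_univ _), if_pos (Finset.mem_univ _)]
  ring

private theorem alt3_cyc {J A : Type} [InvolutiveNeg A] {y : J → J → J → A} (hy : Alt3 y)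
    (i j k : J) : y k i j = y i j k := by
  rw [hy.1 i k j, hy.2 i j k, neg_neg]

private theorem alt3_diag {J E : Type} {y : J → J → J → MvPolynomial E ℤ} (hy : Alt3 y)
    (i k : J) : y i i k = 0 := by
  have h := hy.1 i i k
  have h2 : (2 : MvPolynomial E ℤ) * y i i k = 0 := by
    linear_combination h
  rcases mul_eq_zero.1 h2 with h3 | h3
  · exact absurd h3 two_ne_zero
  · exact h3

private theorem zZ_cyc {V J E : Type} [Fintype J] (S : DG V J E)
    {y : J → J → J → MvPolynomial E ℤ} (hy : Alt3 y)
    (h0' : ∀ i j, S.vt i = S.vt j → S.bd3 y i j = 0)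
    (h0 : ∀ i j k, S.vt i = S.vt j → S.vt j = S.vt k → y i j k = 0) {a b : J}
    (h : S.vt a = S.vt b) : S.Cyc1 (zZ S y a b) := by
  classical
  unfold DG.Cyc1 zZ
  have h1 : ∀ k, S.th k * (if S.vt k = S.vt a then 0 else y a b k) = S.th k * y k a b := by
    intro k
    rw [alt3_cyc hy a b k]
    by_cases hk : S.vt k = S.vt a
    · rw [if_pos hk, h0 a b k h (h.symm.trans hk.symm)]
    · rw [if_neg hk]
  rw [Finset.sum_congr rfl fun k _ => h1 k]
  exact h0' a b h

private theorem z_diff {V J E : Type} (S : DG V J E) (y : J → J → J → MvPolynomial E ℤ) {a b : J}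
    (h : S.vt a = S.vt b) (i j : J) (hij : S.vt i = S.vt j) :
    z1 S a b i = 0 ∨ zZ S y a b j = 0 := by
  classical
  by_cases h1 : i = b
  · right
    unfold zZ
    rw [if_pos (by rw [← hij, h1, h])]
  · by_cases h2 : i = a
    · right
      unfold zZ
      rw [if_pos (by rw [← hij, h2])]
    · left
      unfold z1
      rw [if_neg h1, if_neg h2]

private theorem F_eq {V J E : Type} [Fintype J] [DecidableEq V] (S : DG V J E) (o : J → ℕ)
    (ho : Function.Injective o) {y : J → J → J → MvPolynomial E ℤ} (hy : Alt3 y) (i j : J) :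
    (∑ a, ∑ b, if S.vt a = S.vt b ∧ o a < o b then
      z1 S a b i * zZ S y a b j else 0) =
    ∑ k, if S.vt k = S.vt i ∧ S.vt j ≠ S.vt i then S.th k * y k i j else 0 := by
  classical
  have h1 : ∀ a b, (if S.vt a = S.vt b ∧ o a < o b then z1 S a b i * zZ S y a b j else 0) =
      (if b = i then (if S.vt a = S.vt i ∧ o a < o i then S.th a * zZ S y a i j else 0) else 0) +
      (if a = i then (if S.vt i = S.vt b ∧ o i < o b then -S.th b * zZ S y i b j else 0)
        else 0) := by
    intro a b
    by_cases hc : S.vt a = S.vt b ∧ o a < o b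
    · rw [if_pos hc]
      have hab : a ≠ b := by
        rintro rfl
        exact lt_irrefl _ hc.2
      unfold z1
      by_cases hb : i = b
      · subst hb
        rw [if_pos rfl, if_pos rfl, if_pos hc, if_neg hab, add_zero]
      · rw [if_neg hb, if_neg (Ne.symm hb), zero_add]
        by_cases ha : i = a
        · subst ha
          rw [if_pos rfl, if_pos rfl, if_pos hc]
        · rw [if_neg ha, if_neg (Ne.symm ha), zero_mul]
    · rw [if_neg hc]
      by_cases hb : b = i
      · subst hb
        rw [if_pos rfl, if_neg hc, zero_add]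
        by_cases ha : a = b
        · subst ha
          rw [if_pos rfl, if_neg hc]
        · rw [if_neg ha]
      · rw [if_neg hb, zero_add]
        by_cases ha : a = i
        · subst ha
          rw [if_pos rfl, if_neg hc]
        · rw [if_neg ha]
  have h2 : ∀ a, ∑ b, ((if b = i then (if S.vt a = S.vt i ∧ o a < o i then
      S.th a * zZ S y a i j else 0) else 0) +
      (if a = i then (if S.vt i = S.vt b ∧ o i < o b then -S.th b * zZ S y i b j else 0)
        else 0)) = (if S.vt a = S.vt i ∧ o a < o i then S.th a * zZ S y a i j else 0) +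
      (if a = i then ∑ b, (if S.vt i = S.vt b ∧ o i < o b then -S.th b * zZ S y i b j else 0)
        else 0) := by
    intro a
    rw [Finset.sum_add_distrib, Finset.sum_ite_eq', if_pos (Finset.mem_univ _)]
    congr 1
    split_ifs with h
    · rfl
    · exact Finset.sum_const_zero
  rw [Finset.sum_congr rfl fun a _ => Finset.sum_congr rfl fun b _ => h1 a b,
    Finset.sum_congr rfl fun a _ => h2 a, Finset.sum_add_distrib, Finset.sum_ite_eq',
    if_pos (Finset.mem_univ _), ← Finset.sum_add_distrib]
  refine Finset.sum_congr rfl fun k _ => ?_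
  unfold zZ
  by_cases hj : S.vt j = S.vt i
  · have e1 : ¬ (S.vt k = S.vt i ∧ S.vt j ≠ S.vt i) := fun h => h.2 hj
    rw [if_neg e1, if_pos hj]
    by_cases hk : S.vt k = S.vt i
    · rw [if_pos (hj.trans hk.symm), mul_zero, mul_zero, ite_self, ite_self, add_zero]
    · rw [if_neg fun h => hk h.1, mul_zero, ite_self, add_zero]
  · rw [if_neg hj]
    by_cases hk : S.vt k = S.vt i
    · have hjk : ¬ S.vt j = S.vt k := fun h => hj (h.trans hk)
      have hR : (if S.vt k = S.vt i ∧ S.vt j ≠ S.vt i then S.th k * y k i j else 0) =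
          S.th k * y k i j := if_pos ⟨hk, hj⟩
      rw [hR, if_neg hjk]
      rcases lt_trichotomy (o k) (o i) with h | h | h
      · have a1 : (if S.vt k = S.vt i ∧ o k < o i then S.th k * y k i j else 0) =
            S.th k * y k i j := if_pos ⟨hk, h⟩
        have a2 : (if S.vt i = S.vt k ∧ o i < o k then -S.th k * y i k j else 0) = 0 :=
          if_neg fun h' => lt_asymm h h'.2
        rw [a1, a2, add_zero]
      · have hki := ho h
        subst hki
        have a1 : (if S.vt k = S.vt k ∧ o k < o k then S.th k * y k k j else 0) = 0 :=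
          if_neg fun h' => lt_irrefl _ h'.2
        have a2 : (if S.vt k = S.vt k ∧ o k < o k then -S.th k * y k k j else 0) = 0 :=
          if_neg fun h' => lt_irrefl _ h'.2
        rw [a1, a2, alt3_diag hy, mul_zero, add_zero]
      · have a1 : (if S.vt k = S.vt i ∧ o k < o i then S.th k * y k i j else 0) = 0 :=
          if_neg fun h' => lt_asymm h h'.2
        have a2 : (if S.vt i = S.vt k ∧ o i < o k then -S.th k * y i k j else 0) =
            -S.th k * y i k j := if_pos ⟨hk.symm, h⟩
        rw [a1, a2, zero_add, hy.1 k i j]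
        ring
    · rw [if_neg fun h => hk h.1, if_neg fun h => hk h.1.symm, if_neg fun h => hk h.1, add_zero]

theorem DG.asm3 {V J E : Type} [Fintype V] [Fintype J] (S : DG V J E)
    (𝒮 : AddSubgroup (J → J → MvPolynomial E ℤ))
    (h1 : ∀ y : J → J → J → MvPolynomial E ℤ, Alt3 y →
      (∀ i j k, S.vt i = S.vt j ∨ S.vt j = S.vt k ∨ S.vt i = S.vt k → y i j k = 0) →
        S.bd3 y ∈ 𝒮)
    (h2 : ∀ z z' : J → MvPolynomial E ℤ, S.Cyc1 z → S.Cyc1 z' →
      (∀ i j, S.vt i = S.vt j → z i = 0 ∨ z' j = 0) → wedge z z' ∈ 𝒮)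
    (y : J → J → J → MvPolynomial E ℤ) (hy : Alt3 y)
    (h0' : ∀ i j, S.vt i = S.vt j → S.bd3 y i j = 0)
    (h0 : ∀ i j k, S.vt i = S.vt j → S.vt j = S.vt k → y i j k = 0) :
    S.bd3 y ∈ 𝒮 := by
  classical
  obtain ⟨o, ho⟩ : ∃ o : J → ℕ, Function.Injective o :=
    ⟨fun j => (Fintype.equivFin J j : ℕ), fun a b h =>
      (Fintype.equivFin J).injective (Fin.val_injective h)⟩
  set yd : J → J → J → MvPolynomial E ℤ := fun i j k =>
    if S.vt i = S.vt j ∨ S.vt j = S.vt k ∨ S.vt i = S.vt k then 0 else y i j k with hyd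
  have hydA : Alt3 yd := by
    constructor
    · intro i j k
      simp only [hyd]
      by_cases h : S.vt i = S.vt j ∨ S.vt j = S.vt k ∨ S.vt i = S.vt k
      · rw [if_pos h, if_pos (by tauto), neg_zero]
      · rw [if_neg h, if_neg (by
          intro h'
          apply h
          rcases h' with h' | h' | h'
          · exact Or.inl h'.symm
          · exact Or.inr (Or.inr h')
          · exact Or.inr (Or.inl h')), hy.1]
    · intro i j k
      simp only [hyd]
      by_cases h : S.vt i = S.vt j ∨ S.vt j = S.vt k ∨ S.vt i = S.vt k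
      · rw [if_pos h, if_pos (by
          rcases h with h' | h' | h'
          · exact Or.inr (Or.inr h')
          · exact Or.inr (Or.inl h'.symm)
          · exact Or.inl h'), neg_zero]
      · rw [if_neg h, if_neg (by
          intro h'
          apply h
          rcases h' with h' | h' | h'
          · exact Or.inr (Or.inr h')
          · exact Or.inr (Or.inl h'.symm)
          · exact Or.inl h'), hy.2]
  have hyd0 : ∀ i j k, S.vt i = S.vt j ∨ S.vt j = S.vt k ∨ S.vt i = S.vt k → yd i j k = 0 := by
    intro i j k h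
    simp only [hyd]
    rw [if_pos h]
  have hmain : S.bd3 y = S.bd3 yd + ∑ a, ∑ b, if S.vt a = S.vt b ∧ o a < o b then
      wedge (z1 S a b) (zZ S y a b) else 0 := by
    funext i j
    have e1 : (∑ a, ∑ b, if S.vt a = S.vt b ∧ o a < o b then
        wedge (z1 S a b) (zZ S y a b) else 0) i j =
        (∑ a, ∑ b, if S.vt a = S.vt b ∧ o a < o b then z1 S a b i * zZ S y a b j else 0) -
        (∑ a, ∑ b, if S.vt a = S.vt b ∧ o a < o b then z1 S a b j * zZ S y a b i else 0) := by
      rw [Finset.sum_apply, Finset.sum_apply, ← Finset.sum_sub_distrib]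
      refine Finset.sum_congr rfl fun a _ => ?_
      rw [Finset.sum_apply, Finset.sum_apply, ← Finset.sum_sub_distrib]
      refine Finset.sum_congr rfl fun b _ => ?_
      split_ifs with h
      · unfold wedge
        ring
      · simp
    rw [Pi.add_apply, Pi.add_apply, e1]
    have e2 := F_eq S o ho hy i j
    have e3 := F_eq S o ho hy j i
    rw [e2, e3]
    by_cases hij : S.vt i = S.vt j
    · rw [h0' i j hij]
      have e4 : S.bd3 yd i j = 0 := by
        unfold DG.bd3
        refine Finset.sum_eq_zero fun k _ => ?_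
        rw [hyd0 k i j (Or.inr (Or.inl hij)), mul_zero]
      have e5 : ∀ k, (if S.vt k = S.vt i ∧ S.vt j ≠ S.vt i then S.th k * y k i j else 0) = 0 :=
        fun k => if_neg fun h => h.2 hij.symm
      have e6 : ∀ k, (if S.vt k = S.vt j ∧ S.vt i ≠ S.vt j then S.th k * y k j i else 0) = 0 :=
        fun k => if_neg fun h => h.2 hij
      rw [e4, Finset.sum_congr rfl fun k _ => e5 k, Finset.sum_congr rfl fun k _ => e6 k]
      simp
    · have hji : S.vt j ≠ S.vt i := fun h => hij h.symm
      unfold DG.bd3
      rw [← Finset.sum_sub_distrib, ← Finset.sum_add_distrib]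
      refine Finset.sum_congr rfl fun k _ => ?_
      simp only [hyd]
      by_cases hki : S.vt k = S.vt i
      · have hkj : S.vt k ≠ S.vt j := fun h => hij (hki.symm.trans h)
        rw [if_pos (Or.inl hki), if_pos ⟨hki, hji⟩, if_neg fun h => hkj h.1]
        ring
      · by_cases hkj : S.vt k = S.vt j
        · rw [if_pos (Or.inr (Or.inr hkj)), if_neg fun h => hki h.1, if_pos ⟨hkj, hij⟩, hy.2 k i j]
          ring
        · rw [if_neg (by
            intro h
            rcases h with h | h | h
            · exact hki h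
            · exact hij h
            · exact hkj h), if_neg fun h => hki h.1, if_neg fun h => hkj h.1]
          ring
  rw [hmain]
  refine 𝒮.add_mem (h1 yd hydA hyd0) (𝒮.sum_mem fun a _ => 𝒮.sum_mem fun b _ => ?_)
  split_ifs with h
  · have hab : a ≠ b := by
      rintro rfl
      exact lt_irrefl _ h.2
    exact h2 _ _ (z1_cyc S hab) (zZ_cyc S hy h0' h0 h.1) (z_diff S y h.1)
  · exact 𝒮.zero_mem

end GB
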