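import Pool.Agent.Helper95.GB.AS.Asm1
import Pool.Agent.Helper95.GB.AS.Asm2
import Pool.Agent.Helper95.GB.AS.Asm3

/-! # GB/AS/Final: the statement on 2-cycles (stub, prove in place)

Proof.  Given `𝒮` and `x`: `asm1` gives `y` with `x - bd3 y ∈ 𝒮`; `asm2` gives `y''` with `bd3 y'' = bd3 y` (as
functions); `asm3` gives `bd3 y'' ∈ 𝒮`.  So `x ∈ 𝒮`.
-/

set_option autoImplicit false

namespace GB

theorem DG.PI_of {V J E : Type} [Fintype V] [Fintype J] [Fintype E] (S : DG V J E) (st : E)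
    (q : E → J → ℤ) (hq : S.Qdata st q) (hconn : S.Conn) (hPL : S.PLprop) (hTH : S.THprop) :
    S.PI := by
  intro 𝒮 h1 h2 x hx h0 hc
  obtain ⟨y, hy, hy0, hyS⟩ := DG.asm1 S st q hq hPL 𝒮 h2 x hx h0 hc
  obtain ⟨y'', hy'', hb, h0''⟩ := DG.asm2 S hconn hTH y hy hy0
  have e : S.bd3 y'' = S.bd3 y := by
    funext i j
    exact hb i j
  have h3 : S.bd3 y'' ∈ 𝒮 :=
    DG.asm3 S 𝒮 h1 h2 y'' hy'' (fun i j h => by rw [hb]; exact hy0 i j h) h0''
  rw [e] at h3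
  have h4 := 𝒮.add_mem hyS h3
  rwa [sub_add_cancel] at h4

end GB
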