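import Pool.Agent.Helper95.GB.KL.Defs
import Pool.Agent.Helper95.GB.GT.Defs

/-! # GB/AS/Lift: lifting operators (stub, prove in place)

Let `ρ : E → E` send each edge to an edge of the same component of the graph minus `v` (chain of `Adj v`).
Claim: there are additive operators `L l` with `p - rename ρ p = ∑ l, th l * L l p`, `L l = 0` if `vt l = v`.

Proof.  Let `I` be the set of polynomials of the form `∑ l, th l * r l` with `r l = 0` whenever `vt l = v`
(an ideal).  If `Adj v e e'` then `X e - X e' = ± th k ∈ I` (`vt k ≠ v`); so `X e - X (ρ e) ∈ I` by induction on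
the chain, and `monomial M 1 - rename ρ (monomial M 1) ∈ I` for all `M` (induction on the monomial:
`p q - ρ(p) ρ(q) = (p - ρ p) q + ρ(p) (q - ρ q)`; or `MvPolynomial.induction_on` for all `p`).  Choose such
`r M l` for each `M` and put `L l p = ext (fun M => r M l) p` (file `GT/Defs`: additive extension, here with values
in `A = MvPolynomial E ℤ`): `p = ∑ M, coeff M p • monomial M 1`, so the identity holds for all `p`.
-/

set_option autoImplicit false

namespace GB

open MvPolynomial

section

variable {V J E : Type} [Fintype J] (S : DG V J E) (v : V)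

/-- the ideal generated by the forms of the half-edges at the other vertices -/
private def Iv (p : MvPolynomial E ℤ) : Prop :=
  ∃ r : J → MvPolynomial E ℤ, (∀ l, S.vt l = v → r l = 0) ∧ p = ∑ l, S.th l * r l

variable {S v}

private theorem iv_zero : Iv S v 0 := ⟨fun _ => 0, fun _ _ => rfl, by simp⟩

private theorem iv_add {p q : MvPolynomial E ℤ} (hp : Iv S v p) (hq : Iv S v q) : Iv S v (p + q) := by
  obtain ⟨r, hr, rfl⟩ := hp
  obtain ⟨s, hs, rfl⟩ := hq
  refine ⟨fun l => r l + s l, fun l hl => by simp only [hr l hl, hs l hl, add_zero], ?_⟩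
  rw [← Finset.sum_add_distrib]
  exact Finset.sum_congr rfl fun l _ => (mul_add _ _ _).symm

private theorem iv_mul {p : MvPolynomial E ℤ} (hp : Iv S v p) (q : MvPolynomial E ℤ) : Iv S v (q * p) := by
  obtain ⟨r, hr, rfl⟩ := hp
  refine ⟨fun l => q * r l, fun l hl => by simp only [hr l hl, mul_zero], ?_⟩
  rw [Finset.mul_sum]
  exact Finset.sum_congr rfl fun l _ => by ring

private theorem iv_neg {p : MvPolynomial E ℤ} (hp : Iv S v p) : Iv S v (-p) := by
  have := iv_mul hp (-1)
  rwa [neg_one_mul] at this

private theorem iv_th {k : J} (hk : S.vt k ≠ v) : Iv S v (S.th k) := by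
  classical
  refine ⟨fun l => if l = k then 1 else 0, fun l hl => ?_, ?_⟩
  · have : l ≠ k := fun h => hk (h ▸ hl)
    simp [this]
  · simp

private theorem iv_X {e e' : E} (h : Relation.EqvGen (S.Adj v) e e') : Iv S v (X e - X e') := by
  induction h with
  | rel e e' h =>
    obtain ⟨k, hk, ⟨rfl, rfl⟩ | ⟨rfl, rfl⟩⟩ := h
    · exact iv_th hk
    · have h1 := iv_neg (iv_th hk)
      have h2 : -S.th k = X (S.be (S.vt k)) - X (S.ed k) := by
        unfold DG.th
        ring
      rwa [h2] at h1
  | refl e =>
    rw [sub_self]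
    exact iv_zero
  | symm e e' _ ih =>
    have h1 := iv_neg ih
    rwa [neg_sub] at h1
  | trans a b c _ _ h1 h2 =>
    have h3 := iv_add h1 h2
    rwa [sub_add_sub_cancel] at h3

private theorem iv_rename {ρ : E → E} (hρ : ∀ e, Relation.EqvGen (S.Adj v) e (ρ e)) (p : MvPolynomial E ℤ) :
    Iv S v (p - rename ρ p) := by
  induction p using MvPolynomial.induction_on with
  | C a =>
    rw [rename_C, sub_self]
    exact iv_zero
  | add p q hp hq =>
    have h1 := iv_add hp hq
    have h2 : p - rename ρ p + (q - rename ρ q) = p + q - rename ρ (p + q) := by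
      rw [map_add]
      ring
    rwa [h2] at h1
  | mul_X p e hp =>
    have h1 := iv_add (iv_mul hp (X e)) (iv_mul (iv_X (hρ e)) (rename ρ p))
    have h2 : X e * (p - rename ρ p) + rename ρ p * (X e - X (ρ e)) =
        p * X e - rename ρ (p * X e) := by
      rw [map_mul, rename_X]
      ring
    rwa [h2] at h1

end

theorem DG.lift_ops {V J E : Type} [Fintype J] (S : DG V J E) (v : V) (ρ : E → E)
    (hρ : ∀ e, Relation.EqvGen (S.Adj v) e (ρ e)) :
    ∃ L : J → MvPolynomial E ℤ →+ MvPolynomial E ℤ,
      (∀ l p, S.vt l = v → L l p = 0) ∧ ∀ p, p - rename ρ p = ∑ l, S.th l * L l p := by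
  choose r hr hr' using fun M : E →₀ ℕ => iv_rename (S := S) (v := v) hρ (monomial M (1 : ℤ))
  refine ⟨fun l => extHom fun M => r M l, fun l p hl => ?_, fun p => ?_⟩
  · rw [extHom_apply]
    unfold ext
    refine Finset.sum_eq_zero fun M _ => ?_
    simp only [hr M l hl, smul_zero]
  · induction p using MvPolynomial.induction_on' with
    | monomial M n =>
      have h2 : monomial M n = n • monomial M (1 : ℤ) := by
        rw [smul_monomial, smul_eq_mul, mul_one]
      have h3 : ∀ l, extHom (fun M => r M l) (monomial M n) = n • r M l := fun l => by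
        rw [extHom_apply, ext_monomial]
      simp only [h3]
      rw [h2, map_zsmul, ← smul_sub, hr' M, Finset.smul_sum]
      exact Finset.sum_congr rfl fun l _ => (mul_smul_comm _ _ _).symm
    | add p q hp hq =>
      have h4 : p + q - rename ρ (p + q) = (p - rename ρ p) + (q - rename ρ q) := by
        rw [map_add]
        ring
      rw [h4, hp, hq, ← Finset.sum_add_distrib]
      refine Finset.sum_congr rfl fun l _ => ?_
      rw [map_add, mul_add]

end GB
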