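import Pool.Agent.Helper95.GB.AS.Lift
import Pool.Agent.Helper95.GB.KL.KL3

/-! # GB/AS/Loc: the part of a 3-chain at one vertex (stub, prove in place)

Proof.  Let `K = Quot (S.Adj v)` (the components of the graph minus `v`; finite, use classical instances),
`pr : E → K`, `σ : K → E` a section (`Quot.out`), `ρ = σ ∘ pr`, `Jv = {j // S.vt j = v}`.
Let `S' : DG Unit Jv K`, `vt = ()`, `ed j = pr (S.ed j)`, `be () = pr (S.be v)`.

`Qdata` for `S'` with `st = pr (S.be v)`: `q st = 0`; for `c ≠ st` write `c = pr e` and use `hconn v e`: there is `e'`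
with `pr e' = c` (`ReflTransGen (Adj v) e' e`) and `e' = S.be v` (impossible, `c ≠ st`) or `e' = S.ed k`, `vt k = v`; put
`q c = Pi.single ⟨k,_⟩ 1`.  Then `∑ j, q c j * (u (ed j) - u (be ())) = u c - u st`.

Let `Π = rename pr`.  For `i j : Jv`: `0 = Π (bd3 y i j) = ∑ k, Π (th k) * Π (y k i j)`, and `Π (th k) = 0` for
`vt k ≠ v` (`Adj`), so the function `(i,j,k) ↦ Π (y i j k)` on `Jv` is an alternating cycle for `S'` and `KL3` gives
`z' : Jv → Jv → Jv → Jv → MvPolynomial K ℤ`, `N`, `τ'` with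
`Π (y i j k) = ∑ l, th' l * z' l i j k + ∑ m < N, C (τ' m i j k) * X st ^ m`.
Apply `rename σ`.  By `lift_ops` (`ρ`): `y i j k = rename ρ (y i j k) + ∑ l, th l * L l (y i j k)`, and
`rename σ (th' l * z' l i j k) = rename ρ (th l * ζ) = th l * ζ - ∑ l', th l' * L l' (th l * ζ)`, where
`ζ = rename σ (z' l i j k)` (because `Π (rename σ z') = z'` and `Π (th l) = th' l`).  Altogether for `i j k : Jv`
`y i j k = ∑ l : Jv, th l * rename σ (z' l i j k) + ∑ l, th l * W l i j k + ∑ m < N, C (τ' m i j k) * X e₀ ^ m`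
with `e₀ = σ st` and `W l i j k = L l (y i j k) - ∑ l' : Jv, L l (th l' * rename σ (z' l' i j k))`, which is
alternating in `i, j, k` and zero if `vt l = v`.
Define `z` on `J`: if all four indices are at `v`: `rename σ (z' ...)`.  If exactly one index is not at `v`: move it
to the first place (sign `+, -, +, -` for the positions 1, 2, 3, 4) and take `W`: i.e.
`z l i j k = W l i j k`, `z i l j k = - W l i j k`, `z i j l k = W l i j k`, `z i j k l = - W l i j k` (`vt l ≠ v`).
Otherwise `0`.  This is `Alt4`.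
`τ m` = `τ' m` extended by zero.  `Lharm3`: a function `u` with `Loc v u` factors as `u = u' ∘ pr`; use `Harm3` of `τ' m`.
-/

set_option autoImplicit false

namespace GB

open MvPolynomial

open Classical in
/-- extension by zero of a function of three variables -/
noncomputable def e3 {J A : Type} [Zero A] (p : J → Prop)
    (f : {j // p j} → {j // p j} → {j // p j} → A) (a b c : J) : A :=
  if h : p a ∧ p b ∧ p c then f ⟨a, h.1⟩ ⟨b, h.2.1⟩ ⟨c, h.2.2⟩ else 0

open Classical in
/-- extension by zero of a function of four variables -/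
noncomputable def e4 {J A : Type} [Zero A] (p : J → Prop)
    (f : {j // p j} → {j // p j} → {j // p j} → {j // p j} → A) (a b c d : J) : A :=
  if h : p a ∧ p b ∧ p c ∧ p d then
    f ⟨a, h.1⟩ ⟨b, h.2.1⟩ ⟨c, h.2.2.1⟩ ⟨d, h.2.2.2⟩
  else 0

theorem e3_pos {J A : Type} [Zero A] {p : J → Prop}
    (f : {j // p j} → {j // p j} → {j // p j} → A) {a b c : J} (ha : p a) (hb : p b) (hc : p c) :
    e3 p f a b c = f ⟨a, ha⟩ ⟨b, hb⟩ ⟨c, hc⟩ := by
  unfold e3
  exact dif_pos ⟨ha, hb, hc⟩

theorem e3_neg {J A : Type} [Zero A] {p : J → Prop}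
    (f : {j // p j} → {j // p j} → {j // p j} → A) {a b c : J} (h : ¬ (p a ∧ p b ∧ p c)) :
    e3 p f a b c = 0 := by
  unfold e3
  exact dif_neg h

theorem e4_pos {J A : Type} [Zero A] {p : J → Prop}
    (f : {j // p j} → {j // p j} → {j // p j} → {j // p j} → A) {a b c d : J}
    (ha : p a) (hb : p b) (hc : p c) (hd : p d) :
    e4 p f a b c d = f ⟨a, ha⟩ ⟨b, hb⟩ ⟨c, hc⟩ ⟨d, hd⟩ := by
  unfold e4
  exact dif_pos ⟨ha, hb, hc, hd⟩

theorem e4_neg {J A : Type} [Zero A] {p : J → Prop}
    (f : {j // p j} → {j // p j} → {j // p j} → {j // p j} → A) {a b c d : J}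
    (h : ¬ (p a ∧ p b ∧ p c ∧ p d)) : e4 p f a b c d = 0 := by
  unfold e4
  exact dif_neg h

theorem e3_alt {J A : Type} [AddCommGroup A] {p : J → Prop}
    {f : {j // p j} → {j // p j} → {j // p j} → A} (hf : Alt3 f) : Alt3 (e3 p f) := by
  classical
  refine ⟨fun i j k => ?_, fun i j k => ?_⟩
  · by_cases h : p i ∧ p j ∧ p k
    · rw [e3_pos f h.1 h.2.1 h.2.2, e3_pos f h.2.1 h.1 h.2.2]
      exact hf.1 _ _ _
    · rw [e3_neg f h, e3_neg f (by tauto), neg_zero]
  · by_cases h : p i ∧ p j ∧ p k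
    · rw [e3_pos f h.1 h.2.1 h.2.2, e3_pos f h.1 h.2.2 h.2.1]
      exact hf.2 _ _ _
    · rw [e3_neg f h, e3_neg f (by tauto), neg_zero]

theorem e4_alt {J A : Type} [AddCommGroup A] {p : J → Prop}
    {f : {j // p j} → {j // p j} → {j // p j} → {j // p j} → A} (hf : Alt4 f) :
    Alt4 (e4 p f) := by
  classical
  refine ⟨fun i j k l => ?_, fun i j k l => ?_, fun i j k l => ?_⟩
  · by_cases h : p i ∧ p j ∧ p k ∧ p l
    · rw [e4_pos f h.1 h.2.1 h.2.2.1 h.2.2.2, e4_pos f h.2.1 h.1 h.2.2.1 h.2.2.2]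
      exact hf.1 _ _ _ _
    · rw [e4_neg f h, e4_neg f (by tauto), neg_zero]
  · by_cases h : p i ∧ p j ∧ p k ∧ p l
    · rw [e4_pos f h.1 h.2.1 h.2.2.1 h.2.2.2, e4_pos f h.1 h.2.2.1 h.2.1 h.2.2.2]
      exact hf.2.1 _ _ _ _
    · rw [e4_neg f h, e4_neg f (by tauto), neg_zero]
  · by_cases h : p i ∧ p j ∧ p k ∧ p l
    · rw [e4_pos f h.1 h.2.1 h.2.2.1 h.2.2.2, e4_pos f h.1 h.2.1 h.2.2.2 h.2.2.1]
      exact hf.2.2 _ _ _ _
    · rw [e4_neg f h, e4_neg f (by tauto), neg_zero]

theorem sum_sub {J A : Type} [Fintype J] [AddCommMonoid A] (p : J → Prop) [DecidablePred p]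
    (f : J → A) (hf : ∀ k, ¬ p k → f k = 0) : ∑ k, f k = ∑ k : {j // p j}, f k := by
  have h1 := Fintype.sum_subtype_add_sum_subtype p f
  have h2 : ∑ i : {x // ¬ p x}, f i = 0 := Finset.sum_eq_zero fun i _ => hf i.1 i.2
  rw [h2, add_zero] at h1
  exact h1.symm

theorem DG.loc {V J E : Type} [Fintype J] [Fintype E] (S : DG V J E) (hconn : S.Conn) (v : V)
    (y : J → J → J → MvPolynomial E ℤ) (hy : Alt3 y)
    (hv : ∀ i j, S.vt i = v → S.vt j = v → S.bd3 y i j = 0) :
    ∃ (z : J → J → J → J → MvPolynomial E ℤ) (N : ℕ) (τ : ℕ → J → J → J → ℤ) (e₀ : E),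
      Alt4 z ∧ (∀ i j k l, S.vt i ≠ v → S.vt j ≠ v → z i j k l = 0) ∧
      (∀ m, S.Lharm3 v (τ m)) ∧
      ∀ i j k, S.vt i = v → S.vt j = v → S.vt k = v →
        y i j k = ∑ l, S.th l * z l i j k + ∑ m ∈ Finset.range N, C (τ m i j k) * X e₀ ^ m := by
  classical
  -- the quotient graph
  let K := Quot (S.Adj v)
  let pr : E → K := Quot.mk (S.Adj v)
  let σ : K → E := Quot.out
  have hprσ : ∀ c, pr (σ c) = c := fun c => Quot.out_eq c
  have hprAdj : ∀ k, S.vt k ≠ v → pr (S.ed k) = pr (S.be (S.vt k)) := fun k hk =>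
    Quot.sound ⟨k, hk, Or.inl ⟨rfl, rfl⟩⟩
  let p : J → Prop := fun j => S.vt j = v
  have : Fintype K := Fintype.ofFinite K
  let S' : DG Unit {j // p j} K := ⟨fun _ => (), fun j => pr (S.ed j.1), fun _ => pr (S.be v)⟩
  -- Qdata
  have hQ1 : ∀ c : K, c ≠ pr (S.be v) → ∃ k : {j // p j}, pr (S.ed k.1) = c := by
    intro c hc
    obtain ⟨e, rfl⟩ := Quot.exists_rep c
    obtain ⟨e', he', hchain⟩ := hconn v e
    have heq : pr e' = pr e := by
      clear he' hc
      induction hchain with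
      | refl => rfl
      | tail _ h ih => exact ih.trans (Quot.sound h)
    rcases he' with he' | ⟨k, hk, he'⟩
    · exfalso
      apply hc
      change pr e = _
      rw [← heq, he']
    · exact ⟨⟨k, hk⟩, by rw [← he']; exact heq⟩
  choose kk hkk using hQ1
  let q : K → {j // p j} → ℤ := fun c =>
    if h : c = pr (S.be v) then 0 else Pi.single (kk c h) 1
  have hq : S'.Qdata (pr (S.be v)) q := by
    refine ⟨dif_pos rfl, fun c u => ?_⟩
    by_cases hc : c = pr (S.be v)
    · simp [q, hc]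
    · simp only [q, dif_neg hc]
      rw [Finset.sum_eq_single (kk c hc)]
      · simp only [Pi.single_eq_same, one_mul]
        change u (pr (S.ed (kk c hc).1)) - u (pr (S.be v)) = _
        rw [hkk c hc]
      · intro b _ hb
        rw [Pi.single_eq_of_ne hb, zero_mul]
      · intro h
        exact absurd (Finset.mem_univ _) h
  -- the projected chain
  have hth0 : ∀ k, ¬ p k → rename pr (S.th k) = 0 := by
    intro k hk
    unfold DG.th
    rw [map_sub, rename_X, rename_X, hprAdj k hk, sub_self]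
  have hth1 : ∀ k : {j // p j}, rename pr (S.th k.1) = S'.th k := by
    intro k
    unfold DG.th
    rw [map_sub, rename_X, rename_X, k.2]
  let x : {j // p j} → {j // p j} → {j // p j} → MvPolynomial K ℤ :=
    fun i j k => rename pr (y i.1 j.1 k.1)
  have hx : Alt3 x := by
    refine ⟨fun i j k => ?_, fun i j k => ?_⟩
    · simp only [x]
      rw [hy.1, map_neg]
    · simp only [x]
      rw [hy.2, map_neg]
  have hc : ∀ i j, ∑ k, S'.th k * x k i j = 0 := by
    intro i j
    have h1 : rename pr (S.bd3 y i.1 j.1) = 0 := by rw [hv _ _ i.2 j.2, map_zero]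
    unfold DG.bd3 at h1
    rw [map_sum] at h1
    rw [sum_sub p _ (fun k hk => by rw [map_mul, hth0 k hk, zero_mul])] at h1
    rw [← h1]
    refine Finset.sum_congr rfl fun k _ => ?_
    rw [map_mul, hth1]
  obtain ⟨z', N, τ', hz', hτ', hdec⟩ := S'.KL3 (pr (S.be v)) q hq x hx hc
  -- lifting
  let ρ : E → E := fun e => σ (pr e)
  have hρ : ∀ e, Relation.EqvGen (S.Adj v) e (ρ e) := fun e =>
    Quot.eqvGen_exact (Quot.out_eq (pr e)).symm
  obtain ⟨L, hL0, hL⟩ := S.lift_ops v ρ hρ
  have hρσ : ∀ a : MvPolynomial E ℤ, rename σ (rename pr a) = rename ρ a := fun a => by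
    rw [rename_rename]
    rfl
  have hρζ : ∀ b : MvPolynomial K ℤ, rename ρ (rename σ b) = rename σ b := fun b => by
    rw [rename_rename]
    have : ρ ∘ σ = σ := by
      funext c
      simp only [Function.comp, ρ, hprσ]
    rw [this]
  let ζ : {j // p j} → {j // p j} → {j // p j} → {j // p j} → MvPolynomial E ℤ :=
    fun l i j k => rename σ (z' l i j k)
  have hζ : Alt4 ζ := by
    refine ⟨fun i j k l => ?_, fun i j k l => ?_, fun i j k l => ?_⟩
    · simp only [ζ]
      rw [hz'.1, map_neg]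
    · simp only [ζ]
      rw [hz'.2.1, map_neg]
    · simp only [ζ]
      rw [hz'.2.2, map_neg]
  let W : J → {j // p j} → {j // p j} → {j // p j} → MvPolynomial E ℤ := fun l i j k =>
    L l (y i.1 j.1 k.1) - ∑ l' : {j // p j}, L l (S.th l'.1 * ζ l' i j k)
  have hW0 : ∀ l i j k, p l → W l i j k = 0 := by
    intro l i j k hl
    simp only [W]
    rw [hL0 l _ hl, Finset.sum_eq_zero (fun l' _ => hL0 l _ hl), sub_zero]
  have hWalt : ∀ l, Alt3 (W l) := by
    intro l
    refine ⟨fun i j k => ?_, fun i j k => ?_⟩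
    · simp only [W]
      rw [hy.1 i.1 j.1 k.1, map_neg]
      have : ∑ l' : {j // p j}, L l (S.th l'.1 * ζ l' j i k) =
          - ∑ l' : {j // p j}, L l (S.th l'.1 * ζ l' i j k) := by
        rw [← Finset.sum_neg_distrib]
        refine Finset.sum_congr rfl fun l' _ => ?_
        rw [hζ.2.1 l' i j k, mul_neg, map_neg]
      rw [this]
      ring
    · simp only [W]
      rw [hy.2 i.1 j.1 k.1, map_neg]
      have : ∑ l' : {j // p j}, L l (S.th l'.1 * ζ l' i k j) =
          - ∑ l' : {j // p j}, L l (S.th l'.1 * ζ l' i j k) := by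
        rw [← Finset.sum_neg_distrib]
        refine Finset.sum_congr rfl fun l' _ => ?_
        rw [hζ.2.2 l' i j k, mul_neg, map_neg]
      rw [this]
      ring
  have hmain : ∀ i j k : {j // p j}, y i.1 j.1 k.1 =
      ∑ l : {j // p j}, S.th l.1 * ζ l i j k + ∑ l, S.th l * W l i j k +
        ∑ m ∈ Finset.range N, C (τ' m i j k) * X (σ (pr (S.be v))) ^ m := by
    intro i j k
    have h1 : rename ρ (y i.1 j.1 k.1) = ∑ l : {j // p j}, rename ρ (S.th l.1 * ζ l i j k) +
        ∑ m ∈ Finset.range N, C (τ' m i j k) * X (σ (pr (S.be v))) ^ m := by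
      have h2 := congrArg (rename σ) (hdec i j k)
      simp only [x] at h2
      rw [hρσ, map_add, map_sum, map_sum] at h2
      rw [h2]
      congr 1
      · refine Finset.sum_congr rfl fun l _ => ?_
        rw [map_mul, map_mul, hρζ, ← hρσ, hth1]
      · refine Finset.sum_congr rfl fun m _ => ?_
        rw [map_mul, map_pow, rename_X, rename_C]
    have h3 := hL (y i.1 j.1 k.1)
    have h4 : ∑ l : {j // p j}, rename ρ (S.th l.1 * ζ l i j k) =
        ∑ l : {j // p j}, S.th l.1 * ζ l i j k -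
          ∑ l, S.th l * ∑ l' : {j // p j}, L l (S.th l'.1 * ζ l' i j k) := by
      have h5 : ∑ l, S.th l * ∑ l' : {j // p j}, L l (S.th l'.1 * ζ l' i j k) =
          ∑ l' : {j // p j}, ∑ l, S.th l * L l (S.th l'.1 * ζ l' i j k) := by
        simp only [Finset.mul_sum]
        rw [Finset.sum_comm]
      rw [h5, ← Finset.sum_sub_distrib]
      refine Finset.sum_congr rfl fun l' _ => ?_
      rw [← hL]
      ring
    have h6 : ∑ l, S.th l * W l i j k = ∑ l, S.th l * L l (y i.1 j.1 k.1) -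
        ∑ l, S.th l * ∑ l' : {j // p j}, L l (S.th l'.1 * ζ l' i j k) := by
      simp only [W]
      rw [← Finset.sum_sub_distrib]
      refine Finset.sum_congr rfl fun l _ => ?_
      ring
    rw [h6, ← h3, h1, h4]
    ring
  -- the answer
  let WW : J → J → J → J → MvPolynomial E ℤ := fun l => e3 p (W l)
  have hWW : ∀ l, Alt3 (WW l) := fun l => e3_alt (hWalt l)
  have hWW0 : ∀ l i j k, p l → WW l i j k = 0 := by
    intro l i j k hl
    simp only [WW]
    by_cases h : p i ∧ p j ∧ p k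
    · rw [e3_pos _ h.1 h.2.1 h.2.2, hW0 _ _ _ _ hl]
    · rw [e3_neg _ h]
  have hWWn : ∀ l i j k, ¬ (p i ∧ p j ∧ p k) → WW l i j k = 0 := fun l i j k h => e3_neg _ h
  have hZ : Alt4 (e4 p ζ) := e4_alt hζ
  refine ⟨fun a b c d => e4 p ζ a b c d + WW a b c d - WW b a c d + WW c a b d - WW d a b c, N,
    fun m => e3 p (τ' m), σ (pr (S.be v)), ⟨?_, ?_, ?_⟩, ?_, ?_, ?_⟩
  · intro a b c d
    simp only
    rw [hZ.1 a b c d, (hWW c).1 a b d, (hWW d).1 a b c]
    ring
  · intro a b c d
    simp only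
    rw [hZ.2.1 a b c d, (hWW a).1 b c d, (hWW d).2 a b c]
    ring
  · intro a b c d
    simp only
    rw [hZ.2.2 a b c d, (hWW a).2 b c d, (hWW b).2 a c d]
    ring
  · intro i j k l hi hj
    simp only
    have hi' : ¬ p i := hi
    have hj' : ¬ p j := hj
    rw [e4_neg _ (by tauto), hWWn _ _ _ _ (by tauto), hWWn _ _ _ _ (by tauto),
      hWWn _ _ _ _ (by tauto), hWWn _ _ _ _ (by tauto)]
    ring
  · intro m
    refine ⟨e3_alt (hτ' m).1, ?_, ?_⟩
    · intro i j k hi
      have hi' : ¬ p i := hi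
      exact e3_neg _ (by tauto)
    · intro u hu i j
      by_cases hij : p i ∧ p j
      · beta_reduce
        rw [sum_sub p (fun k => e3 p (τ' m) k i j * (u (S.ed k) - u (S.be (S.vt k))))
          (fun k hk => by rw [e3_neg _ (by tauto), zero_mul])]
        let u' : K → ℤ := Quot.lift u (by
          rintro a b ⟨k, hk, h | h⟩
          · rw [h.1, h.2]
            exact hu k hk
          · rw [h.1, h.2]
            exact (hu k hk).symm)
        have h1 := (hτ' m).2 ⟨i, hij.1⟩ ⟨j, hij.2⟩ u'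
        rw [← h1]
        refine Finset.sum_congr rfl fun k _ => ?_
        beta_reduce
        rw [e3_pos _ k.2 hij.1 hij.2]
        have hk : S.vt k.1 = v := k.2
        rw [hk]
      · refine Finset.sum_eq_zero fun k _ => ?_
        beta_reduce
        rw [e3_neg _ (by tauto), zero_mul]
  · intro i j k hi hj hk
    have hi' : p i := hi
    have hj' : p j := hj
    have hk' : p k := hk
    have h1 := hmain ⟨i, hi⟩ ⟨j, hj⟩ ⟨k, hk⟩
    simp only at h1
    rw [h1]
    congr 1
    · have h2 : ∀ l, S.th l * (e4 p ζ l i j k + WW l i j k - WW i l j k + WW j l i k - WW k l i j)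
          = S.th l * e4 p ζ l i j k + S.th l * WW l i j k := by
        intro l
        rw [hWW0 i l j k hi', hWW0 j l i k hj', hWW0 k l i j hk']
        ring
      simp only [h2]
      rw [Finset.sum_add_distrib]
      congr 1
      · rw [sum_sub p (fun l => S.th l * e4 p ζ l i j k)
          (fun l hl => by rw [e4_neg _ (by tauto), mul_zero])]
        refine Finset.sum_congr rfl fun l _ => ?_
        rw [e4_pos _ l.2 hi' hj' hk']
      · refine Finset.sum_congr rfl fun l _ => ?_
        simp only [WW]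
        rw [e3_pos _ hi' hj' hk']
    · refine Finset.sum_congr rfl fun m _ => ?_
      beta_reduce
      rw [e3_pos _ hi' hj' hk']

end GB
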